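import Mathlib

namespace Pool.Agent.Results.MP_fd999f_co.Counter
open Finset Pointwise

lemma cop {n m a : ℕ} (_h : n < m) (ha : m - n ∣ a) : Nat.Coprime (n * a + 1) (m * a + 1) := by
  refine Nat.coprime_of_dvd fun p hp h1 h2 => ?_
  have h3 : p ∣ (m - n) * a := by
    have := (Nat.dvd_sub h2 h1)
    rwa [Nat.add_sub_add_right, ← Nat.sub_mul] at this
  have h4 : p ∣ a := by
    rcases (Nat.Prime.dvd_mul hp).1 h3 with h | h
    · exact h.trans ha
    · exact h
  exact hp.one_lt.ne' (Nat.dvd_one.1 ((Nat.dvd_add_right (Dvd.dvd.mul_left h4 n)).1 h1))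

lemma expand (P F : Finset ℕ) (h1 : ∀ e ∈ P, 1 < e)
    (hP : ∀ e ∈ P, ∀ d ∈ P, e ≠ d → Nat.Coprime e d) (hF : ∀ f ∈ F, 0 < f) :
    P.card * F.card ≤ (P * F).card + F.card ^ 3 := by
  classical
  let B := P.filter fun e => ∃ d ∈ P, e ≠ d ∧ ∃ f ∈ F, ∃ g ∈ F, e * f = d * g
  have hB : B.card ≤ F.card ^ 2 := by
    have : ∀ e ∈ B, ∃ q ∈ F ×ˢ F, ∃ d ∈ P, e ≠ d ∧ e * q.1 = d * q.2 := by
      intro e he
      obtain ⟨_, d, hd, hne, f, hf, g, hg, h⟩ := mem_filter.1 he
      exact ⟨(f, g), mem_product.2 ⟨hf, hg⟩, d, hd, hne, h⟩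
    choose! q hq1 hq2 using this
    rw [sq, ← card_product]
    refine card_le_card_of_injOn q hq1 fun e he e' he' h => ?_
    obtain ⟨d, hd, hne, h2⟩ := hq2 e he
    obtain ⟨d', hd', hne', h2'⟩ := hq2 e' he'
    rw [← h] at h2'
    have heP := (mem_filter.1 he).1
    have heP' := (mem_filter.1 he').1
    have hq := mem_product.1 (hq1 e he)
    have hf := hF _ hq.1
    have hg := hF _ hq.2
    have h3 : e * d' = d * e' := by
      have : e * d' * ((q e).1 * (q e).2) = d * e' * ((q e).1 * (q e).2) := by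
        calc e * d' * ((q e).1 * (q e).2) = (e * (q e).1) * (d' * (q e).2) := by ring
          _ = (d * (q e).2) * (e' * (q e).1) := by rw [h2, h2']
          _ = _ := by ring
      exact Nat.eq_of_mul_eq_mul_right (Nat.mul_pos hf hg) this
    by_contra hne2
    have h4 : e ∣ d * e' := ⟨d', h3.symm⟩
    have h5 := (hP e heP d hd hne).dvd_of_dvd_mul_left h4
    have h6 := Nat.Coprime.eq_one_of_dvd (hP e heP e' heP' hne2) h5
    have := h1 e heP
    omega
  have hinj : ((P \ B) ×ˢ F).card ≤ (P * F).card := by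
    refine card_le_card_of_injOn (fun z => z.1 * z.2) ?_ ?_
    · rintro ⟨e, f⟩ h
      simp only [coe_product, Set.mem_prod, mem_coe, mem_sdiff] at h
      exact mul_mem_mul h.1.1 h.2
    · rintro ⟨e, f⟩ h ⟨d, g⟩ h' h2
      simp only [coe_product, Set.mem_prod, mem_coe, mem_sdiff] at h h' h2
      have h3 : e = d := by
        by_contra h3
        exact h.1.2 (mem_filter.2 ⟨h.1.1, d, h'.1.1, h3, f, h.2, g, h'.2, h2⟩)
      subst h3
      rw [Nat.eq_of_mul_eq_mul_left (by have := h1 e h.1.1; omega) h2]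
  rw [card_product, card_sdiff_of_subset (show B ⊆ P from filter_subset _ _)] at hinj
  have h7 : B.card ≤ P.card := card_filter_le _ _
  have h8 : P.card * F.card = (P.card - B.card) * F.card + B.card * F.card := by
    rw [← add_mul, Nat.sub_add_cancel h7]
  have h9 : B.card * F.card ≤ F.card ^ 3 := by
    rw [pow_succ]
    exact Nat.mul_le_mul_right _ hB
  omega

lemma half (X E F : Finset ℕ) (m : ℕ) (hm : m + 1 ≤ F.card)
    (hX : ∀ x ∈ X, ∀ y ∈ X, x ≠ y → Nat.Coprime x y)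
    (h : ∀ x ∈ X, ∃ e ∈ E, 1 < e ∧ e ∣ x) : X.card * m ≤ (E * F).card + m ^ 3 := by
  classical
  choose! e he1 he2 he3 using h
  obtain ⟨F0, hF0, hc⟩ : ∃ F0 ⊆ F.erase 0, F0.card = m :=
    exists_subset_card_eq (by have := pred_card_le_card_erase (s := F) (a := 0); omega)
  have hco : ∀ x ∈ X, ∀ y ∈ X, x ≠ y → Nat.Coprime (e x) (e y) := fun x hx y hy hne =>
    Nat.Coprime.coprime_dvd_left (he3 x hx) (Nat.Coprime.coprime_dvd_right (he3 y hy) (hX x hx y hy hne))
  have hi : (X.image e).card = X.card := by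
    refine card_image_of_injOn fun x hx y hy hxy => ?_
    by_contra hne
    have := hco x hx y hy hne
    rw [hxy, Nat.coprime_self] at this
    have := he2 y hy
    omega
  have := expand (X.image e) F0 ?_ ?_ ?_
  · rw [hi, hc] at this
    refine this.trans (Nat.add_le_add_right (card_le_card (mul_subset_mul ?_ ?_)) _)
    · intro z hz
      obtain ⟨x, hx, rfl⟩ := mem_image.1 hz
      exact he1 x hx
    · exact hF0.trans (erase_subset _ _)
  · intro z hz
    obtain ⟨x, hx, rfl⟩ := mem_image.1 hz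
    exact he2 x hx
  · intro z hz w hw hne
    obtain ⟨x, hx, rfl⟩ := mem_image.1 hz
    obtain ⟨y, hy, rfl⟩ := mem_image.1 hw
    exact hco x hx y hy fun h => hne (by rw [h])
  · intro f hf
    exact Nat.pos_of_ne_zero (mem_erase.1 (hF0 hf)).1

theorem result (c₃ c₄ δ : ℝ) (_h₃ : 0 < c₃) (h₄ : 0 < c₄) (hδ : 0 < δ) (N : ℕ) :
    ∃ A : Finset ℕ, 0 ∉ A ∧ N ≤ A.card ∧ N ≤ (A * A).card ∧ ¬ ∃ E F : Finset ℕ,
      ((A * A).card : ℝ) ^ δ ≤ E.card ∧ ((A * A).card : ℝ) ^ δ ≤ F.card ∧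
      ((E * F).card : ℝ) ≤ c₃ * (A * A).card ∧
      c₄ * (A * A).card ≤ ((((A * A).image (· + 1)) ∩ (E * F)).card : ℝ) := by
  classical
  obtain ⟨m, hm⟩ := exists_nat_ge (2 * (c₃ + 1) / c₄)
  obtain ⟨k0, hk0⟩ := exists_nat_ge (((m : ℝ) + 1) ^ (1 / δ))
  set k := max (max N k0) (m ^ 3 + 1) with hk
  have hk1 : 1 ≤ k := le_max_of_le_right (by omega)
  set t := (k * k).factorial with ht
  have tpos : 0 < t := Nat.factorial_pos _
  let A := (Icc 1 k).image (· * t)
  have hA : A.card = k := by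
    rw [card_image_of_injective _ (mul_left_injective₀ tpos.ne')]
    simp
  have hAA : k ≤ (A * A).card := by
    rw [← hA]
    refine card_le_card_of_injOn (· * t) (fun a ha => ?_) (mul_left_injective₀ tpos.ne').injOn
    exact mul_mem_mul ha (mem_image.2 ⟨1, by simp [hk1], one_mul _⟩)
  refine ⟨A, ?_, hA ▸ le_max_of_le_left (le_max_left _ _),
    (le_max_of_le_left (le_max_left _ _)).trans hAA, ?_⟩
  · intro h
    obtain ⟨i, hi, h⟩ := mem_image.1 h
    have := (mem_Icc.1 hi).1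
    have := Nat.mul_pos (show 0 < i by omega) tpos
    omega
  rintro ⟨E, F, hE, hF, h1, h2⟩
  set n := (A * A).card with hn
  set X := ((A * A).image (· + 1)) ∩ (E * F) with hX
  have hform : ∀ x ∈ X, ∃ j, 1 ≤ j ∧ j ≤ k * k ∧ x = j * (t * t) + 1 := by
    intro x hx
    obtain ⟨y, hy, rfl⟩ := mem_image.1 (mem_inter.1 hx).1
    obtain ⟨a, ha, b, hb, rfl⟩ := mem_mul.1 hy
    obtain ⟨i, hi, rfl⟩ := mem_image.1 ha
    obtain ⟨j, hj, rfl⟩ := mem_image.1 hb
    rw [mem_Icc] at hi hj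
    exact ⟨i * j, Nat.mul_pos hi.1 hj.1, Nat.mul_le_mul hi.2 hj.2, by ring⟩
  have hco : ∀ x ∈ X, ∀ y ∈ X, x ≠ y → Nat.Coprime x y := by
    intro x hx y hy hne
    obtain ⟨i, hi1, hi2, rfl⟩ := hform x hx
    obtain ⟨j, hj1, hj2, rfl⟩ := hform y hy
    rcases lt_trichotomy i j with h | h | h
    · exact cop h (Dvd.dvd.mul_right (Nat.dvd_factorial (by omega) (by omega)) _)
    · exact absurd (by rw [h]) hne
    · exact (cop h (Dvd.dvd.mul_right (Nat.dvd_factorial (by omega) (by omega)) _)).symm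
  have hbig : (m : ℝ) + 1 ≤ (n : ℝ) ^ δ := by
    have h5 : ((m : ℝ) + 1) ^ (1 / δ) ≤ n :=
      hk0.trans (by exact_mod_cast (le_max_of_le_left (le_max_right _ _)).trans hAA)
    have := Real.rpow_le_rpow (by positivity) h5 hδ.le
    rwa [← Real.rpow_mul (by positivity), one_div_mul_cancel hδ.ne', Real.rpow_one] at this
  have hE' : m + 1 ≤ E.card := by exact_mod_cast hbig.trans hE
  have hF' : m + 1 ≤ F.card := by exact_mod_cast hbig.trans hF
  let X1 := X.filter fun x => ∃ e ∈ E, 1 < e ∧ e ∣ x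
  let X2 := X.filter fun x => ∃ e ∈ F, 1 < e ∧ e ∣ x
  have g1 := half X1 E F m hF' (fun x hx y hy => hco x (mem_filter.1 hx).1 y (mem_filter.1 hy).1)
    fun x hx => (mem_filter.1 hx).2
  have g2 := half X2 F E m hE' (fun x hx y hy => hco x (mem_filter.1 hx).1 y (mem_filter.1 hy).1)
    fun x hx => (mem_filter.1 hx).2
  rw [mul_comm F E] at g2
  have hu : X.card ≤ X1.card + X2.card := by
    refine le_trans (card_le_card fun x hx => ?_) (card_union_le _ _)
    obtain ⟨e, he, f, hf, h⟩ := mem_mul.1 (mem_inter.1 hx).2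
    obtain ⟨j, hj1, _, hj⟩ := hform x hx
    have := Nat.mul_pos (show 0 < j by omega) (Nat.mul_pos tpos tpos)
    by_cases h6 : 1 < e
    · exact mem_union_left _ (mem_filter.2 ⟨hx, e, he, h6, f, h.symm⟩)
    · refine mem_union_right _ (mem_filter.2 ⟨hx, f, hf, ?_, e, by rw [← h, mul_comm]⟩)
      have : e * f ≤ 1 * f := Nat.mul_le_mul_right _ (by omega)
      omega
  have g3 : X.card * m ≤ 2 * (E * F).card + 2 * m ^ 3 := by
    have := Nat.mul_le_mul_right m hu
    rw [add_mul] at this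
    omega
  have g4 : (X.card : ℝ) * m ≤ 2 * (E * F).card + 2 * (m : ℝ) ^ 3 := by exact_mod_cast g3
  have g5 : (m : ℝ) ^ 3 + 1 ≤ n := by exact_mod_cast (le_max_right _ _).trans hAA
  have g6 : 2 * (c₃ + 1) ≤ m * c₄ := (div_le_iff₀ h₄).1 hm
  have g7 : (0 : ℝ) ≤ n := Nat.cast_nonneg _
  have g8 : c₄ * n * m ≤ (X.card : ℝ) * m := mul_le_mul_of_nonneg_right h2 (Nat.cast_nonneg _)
  have g9 : 2 * (c₃ + 1) * n ≤ m * c₄ * n := mul_le_mul_of_nonneg_right g6 g7
  nlinarith

end Pool.Agent.Results.MP_fd999f_co.Counter
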